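import Mathlib.Tactic.Monotonicity.Lemmas
import Mathlib.Algebra.Order.Star.Real
import Mathlib.Analysis.Calculus.BumpFunction.FiniteDimension
import Mathlib.Analysis.Calculus.BumpFunction.Normed
import Mathlib.MeasureTheory.Integral.IntegralEqImproper
import Mathlib.Analysis.SpecialFunctions.PolarCoord
import Mathlib.RingTheory.PiTensorProduct
import Mathlib.Topology.UniformSpace.Uniformizable
import Pool.Agent.MP_7f5071_gt.Spec

-- ======== part 0: formerly Pool.Agent.MP_7f5071_gt.D1.Alt
section MrgPart0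

/-! Module D1, first part: the finite alternative and its dual form for bounded fields. -/

namespace Pool.Agent.MP_7f5071_gt.D1

open Filter Topology Set Metric MeasureTheory

/-- A convex set either meets the open negative orthant or is separated from it. -/
theorem alt {ι : Type} [Fintype ι] (S : Set (ι → ℝ)) (hS : Convex ℝ S) (hne : S.Nonempty) :
    (∃ u ∈ S, ∀ c, u c < 0) ∨
      ∃ w : ι → ℝ, (∀ c, 0 ≤ w c) ∧ ∑ c, w c = 1 ∧ ∀ u ∈ S, 0 ≤ ∑ c, w c * u c := by
  classical
  by_cases h : ∃ u ∈ S, ∀ c, u c < 0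
  · exact Or.inl h
  right
  set U : Set (ι → ℝ) := {u | ∀ c, u c < 0} with hU
  have hUo : IsOpen U := by
    have : U = ⋂ c, {u : ι → ℝ | u c < 0} := by ext u; simp [hU]
    rw [this]
    exact isOpen_iInter_of_finite fun c => isOpen_lt (continuous_apply c) continuous_const
  have hUc : Convex ℝ U := by
    intro x hx y hy a b ha hb hab c
    have h1 := hx c
    have h2 := hy c
    simp only [Pi.add_apply, Pi.smul_apply, smul_eq_mul]
    rcases eq_or_lt_of_le ha with h0 | h0
    · have : b = 1 := by linarith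
      rw [← h0, this]; linarith
    · nlinarith [mul_nonneg hb (neg_nonneg.2 h2.le), mul_pos h0 (neg_pos.2 h1)]
  have hd : Disjoint U S := by
    rw [Set.disjoint_left]
    intro u hu huS
    exact h ⟨u, huS, hu⟩
  obtain ⟨f, r, hf1, hf2⟩ := geometric_hahn_banach_open hUc hUo hS hd
  set w0 : ι → ℝ := fun c => f (Pi.single c 1) with hw0
  have hrep : ∀ u : ι → ℝ, f u = ∑ c, w0 c * u c := by
    intro u
    conv_lhs => rw [← Finset.univ_sum_single u]
    rw [map_sum]
    refine Finset.sum_congr rfl fun c _ => ?_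
    have : (Pi.single c (u c) : ι → ℝ) = u c • (Pi.single c 1 : ι → ℝ) := by
      ext d
      by_cases hd : d = c
      · subst hd; simp
      · simp [hd]
    rw [this, map_smul, smul_eq_mul, mul_comm]
  set σ : ℝ := ∑ c, w0 c with hσ
  have hneg : ∀ t : ℝ, 0 < t → -(t * σ) < r := by
    intro t ht
    have := hf1 (fun _ => -t) (fun c => by simpa using ht)
    rw [hrep] at this
    simp only [mul_neg, Finset.sum_neg_distrib] at this
    rw [← Finset.sum_mul] at this
    linarith
  have hw0nn : ∀ c, 0 ≤ w0 c := by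
    intro c
    by_contra hc
    push Not at hc
    set t : ℝ := (|r| + |σ| + 1) / (-w0 c) with ht
    have htpos : 0 < t := div_pos (by positivity) (by linarith)
    have hmem : ((fun _ => (-1 : ℝ)) - t • (Pi.single c 1 : ι → ℝ)) ∈ U := by
      intro d
      by_cases hd : d = c
      · subst hd; simp; linarith
      · simp [hd]
    have h1 := hf1 _ hmem
    rw [map_sub, map_smul, hrep (fun _ => (-1 : ℝ))] at h1
    simp only [mul_neg, mul_one, Finset.sum_neg_distrib, smul_eq_mul] at h1
    have h2 : t * w0 c = -(|r| + |σ| + 1) := by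
      rw [ht]; field_simp [hc.ne]
    change -σ - t * w0 c < r at h1
    rw [h2] at h1
    linarith [le_abs_self r, le_abs_self σ]
  have hσnn : 0 ≤ σ := Finset.sum_nonneg fun c _ => hw0nn c
  have hr : 0 ≤ r := by
    by_contra hr
    push Not at hr
    have := hneg (-r / (σ + 1)) (div_pos (by linarith) (by linarith))
    have h2 : -r / (σ + 1) * σ ≤ -r := by
      rw [div_mul_eq_mul_div, div_le_iff₀ (by linarith)]
      nlinarith
    linarith
  have hσpos : 0 < σ := by
    rcases eq_or_lt_of_le hσnn with h0 | h0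
    · exfalso
      have hall : ∀ c, w0 c = 0 := fun c =>
        (Finset.sum_eq_zero_iff_of_nonneg fun c _ => hw0nn c).1 h0.symm c (Finset.mem_univ c)
      obtain ⟨u, hu⟩ := hne
      have h1 := hf2 u hu
      rw [hrep] at h1
      simp only [hall, zero_mul, Finset.sum_const_zero] at h1
      have h2 := hneg 1 one_pos
      rw [← h0] at h2
      linarith
    · exact h0
  refine ⟨fun c => w0 c / σ, fun c => div_nonneg (hw0nn c) hσnn, ?_, fun u hu => ?_⟩
  · rw [← Finset.sum_div, ← hσ, div_self hσpos.ne']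
  · have h1 := hf2 u hu
    rw [hrep] at h1
    have : ∑ c, w0 c / σ * u c = (∑ c, w0 c * u c) / σ := by
      rw [Finset.sum_div]
      exact Finset.sum_congr rfl fun c _ => by ring
    rw [this]
    exact div_nonneg (hr.trans h1) hσnn

/-- Measurable fields bounded by `η`. -/
def Fld (η : ℝ) (g : R2 → R2) : Prop := Measurable g ∧ ∀ t, ‖g t‖ ≤ η

theorem Fld.int1 {η : ℝ} {g : R2 → R2} (hg : Fld η g) {k : R2 → ℝ} (hk : Integrable k) :
    Integrable fun t => k t * (g t).1 :=
  hk.mul_bdd (c := η) hg.1.fst.aestronglyMeasurable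
    (Eventually.of_forall fun t => (norm_fst_le _).trans (hg.2 t))

theorem Fld.int2 {η : ℝ} {g : R2 → R2} (hg : Fld η g) {k : R2 → ℝ} (hk : Integrable k) :
    Integrable fun t => k t * (g t).2 :=
  hk.mul_bdd (c := η) hg.1.snd.aestronglyMeasurable
    (Eventually.of_forall fun t => (norm_snd_le _).trans (hg.2 t))

/-- The pairing of two kernels with a field. -/
noncomputable def pr (k1 k2 : R2 → ℝ) (g : R2 → R2) : ℝ :=
  (∫ t, k1 t * (g t).1) + ∫ t, k2 t * (g t).2

theorem pr_combo {η : ℝ} {g g' : R2 → R2} (hg : Fld η g) (hg' : Fld η g') {k1 k2 : R2 → ℝ}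
    (h1 : Integrable k1) (h2 : Integrable k2) (a b : ℝ) :
    pr k1 k2 (a • g + b • g') = a * pr k1 k2 g + b * pr k1 k2 g' := by
  unfold pr
  have e1 : (fun t => k1 t * ((a • g + b • g') t).1) =
      fun t => a * (k1 t * (g t).1) + b * (k1 t * (g' t).1) := by
    ext t; simp; ring
  have e2 : (fun t => k2 t * ((a • g + b • g') t).2) =
      fun t => a * (k2 t * (g t).2) + b * (k2 t * (g' t).2) := by
    ext t; simp; ring
  rw [e1, e2, integral_add ((hg.int1 h1).const_mul a) ((hg'.int1 h1).const_mul b),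
    integral_add ((hg.int2 h2).const_mul a) ((hg'.int2 h2).const_mul b)]
  simp only [integral_const_mul]
  ring

/-- The sign field that minimizes the pairing with a continuous kernel. -/
noncomputable def sg (η : ℝ) (k : R2 → ℝ) (t : R2) : ℝ := if 0 ≤ k t then -η else η

theorem sg_meas (η : ℝ) {k : R2 → ℝ} (hk : Measurable k) : Measurable (sg η k) :=
  Measurable.ite (measurableSet_le measurable_const hk) measurable_const measurable_const

theorem sg_abs {η : ℝ} (hη : 0 ≤ η) (k : R2 → ℝ) (t : R2) : ‖sg η k t‖ ≤ η := by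
  unfold sg
  split_ifs <;> simp [abs_of_nonneg hη]

theorem sg_mul (η : ℝ) (k : R2 → ℝ) (t : R2) : k t * sg η k t = -η * |k t| := by
  unfold sg
  split_ifs with h
  · rw [abs_of_nonneg h]; ring
  · rw [abs_of_neg (not_le.1 h)]; ring

/-- The dual form of the alternative. -/
theorem dual {ι : Type} [Fintype ι] {η : ℝ} (hη : 0 ≤ η) (k1 k2 : ι → R2 → ℝ) (o : ι → ℝ)
    (hi1 : ∀ c, Integrable (k1 c)) (hi2 : ∀ c, Integrable (k2 c))
    (hm1 : ∀ c, Measurable (k1 c)) (hm2 : ∀ c, Measurable (k2 c)) :
    (∃ g, Fld η g ∧ ∀ c, pr (k1 c) (k2 c) g + o c < 0) ∨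
      ∃ w : ι → ℝ, (∀ c, 0 ≤ w c) ∧ ∑ c, w c = 1 ∧
        η * ((∫ t, |∑ c, w c * k1 c t|) + ∫ t, |∑ c, w c * k2 c t|) ≤ ∑ c, w c * o c := by
  set S : Set (ι → ℝ) := {u | ∃ g, Fld η g ∧ u = fun c => pr (k1 c) (k2 c) g + o c} with hS
  have hconv : Convex ℝ S := by
    rintro _ ⟨g, hg, rfl⟩ _ ⟨g', hg', rfl⟩ a b ha hb hab
    refine ⟨a • g + b • g', ⟨(hg.1.const_smul a).add (hg'.1.const_smul b), fun t => ?_⟩, ?_⟩
    · calc ‖(a • g + b • g') t‖ ≤ ‖a • g t‖ + ‖b • g' t‖ := norm_add_le _ _
        _ = a * ‖g t‖ + b * ‖g' t‖ := by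
          rw [norm_smul, norm_smul, Real.norm_of_nonneg ha, Real.norm_of_nonneg hb]
        _ ≤ a * η + b * η := by
          gcongr
          · exact hg.2 t
          · exact hg'.2 t
        _ = η := by rw [← add_mul, hab, one_mul]
    · ext c
      simp only [Pi.add_apply, Pi.smul_apply, smul_eq_mul]
      rw [pr_combo hg hg' (hi1 c) (hi2 c)]
      have : o c = a * o c + b * o c := by rw [← add_mul, hab, one_mul]
      linarith
  have h0 : Fld η (fun _ => (0 : R2)) := ⟨measurable_const, fun _ => by simpa using hη⟩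
  rcases alt S hconv ⟨_, _, h0, rfl⟩ with ⟨_, ⟨g, hg, rfl⟩, hu⟩ | ⟨w, hw, hw1, hwS⟩
  · exact Or.inl ⟨g, hg, hu⟩
  right
  refine ⟨w, hw, hw1, ?_⟩
  set n1 : R2 → ℝ := fun t => ∑ c, w c * k1 c t with hn1
  set n2 : R2 → ℝ := fun t => ∑ c, w c * k2 c t with hn2
  have mn1 : Measurable n1 := Finset.measurable_sum _ fun c _ => (hm1 c).const_mul _
  have mn2 : Measurable n2 := Finset.measurable_sum _ fun c _ => (hm2 c).const_mul _
  set g : R2 → R2 := fun t => (sg η n1 t, sg η n2 t) with hg
  have hF : Fld η g := ⟨(sg_meas η mn1).prodMk (sg_meas η mn2), fun t => by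
    rw [Prod.norm_def]; exact max_le (sg_abs hη _ _) (sg_abs hη _ _)⟩
  have h := hwS _ ⟨g, hF, rfl⟩
  simp only [mul_add, Finset.sum_add_distrib, pr] at h
  have e1 : ∑ c, w c * ∫ t, k1 c t * (g t).1 = -η * ∫ t, |n1 t| := by
    simp_rw [← integral_const_mul]
    rw [← integral_finsetSum _ fun c _ => (hF.int1 (hi1 c)).const_mul _]
    refine integral_congr_ae (Eventually.of_forall fun t => ?_)
    simp only [← mul_assoc, ← Finset.sum_mul]
    exact sg_mul η n1 t
  have e2 : ∑ c, w c * ∫ t, k2 c t * (g t).2 = -η * ∫ t, |n2 t| := by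
    simp_rw [← integral_const_mul]
    rw [← integral_finsetSum _ fun c _ => (hF.int2 (hi2 c)).const_mul _]
    refine integral_congr_ae (Eventually.of_forall fun t => ?_)
    simp only [← mul_assoc, ← Finset.sum_mul]
    exact sg_mul η n2 t
  rw [e1, e2] at h
  linarith

end Pool.Agent.MP_7f5071_gt.D1

end MrgPart0

-- ======== part 1: formerly Pool.Agent.MP_7f5071_gt.D1.Det
section MrgPart1

/-! Module D1, second part: the integral of the determinant of a matrix field is bounded by the
product of the masses of the divergences of its rows. -/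

namespace Pool.Agent.MP_7f5071_gt.D1

open Filter Topology Set Metric MeasureTheory

/-- Continuously differentiable functions of compact support on the line. -/
structure Bump (a : ℝ → ℝ) : Prop where
  cd : ContDiff ℝ 1 a
  cs : HasCompactSupport a

namespace Bump

variable {a b : ℝ → ℝ}

theorem cont (h : Bump a) : Continuous a := h.cd.continuous

theorem contd (h : Bump a) : Continuous (deriv a) := h.cd.continuous_deriv le_rfl

theorem hd (h : Bump a) (x : ℝ) : HasDerivAt a (deriv a x) x :=
  (h.cd.differentiable one_ne_zero x).hasDerivAt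

theorem int (h : Bump a) : Integrable a := h.cont.integrable_of_hasCompactSupport h.cs

theorem intd (h : Bump a) : Integrable (deriv a) :=
  h.contd.integrable_of_hasCompactSupport h.cs.deriv

theorem int_deriv (h : Bump a) : ∫ x, deriv a x = 0 :=
  integral_eq_zero_of_hasDerivAt_of_integrable h.hd h.intd h.int

theorem int_mul (ha : Bump a) (hb : Bump b) : Integrable fun x => a x * b x :=
  (ha.cont.mul hb.cont).integrable_of_hasCompactSupport hb.cs.mul_left

end Bump

/-- The primitive that vanishes at `L`. -/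
noncomputable def prim (L : ℝ) (a : ℝ → ℝ) (x : ℝ) : ℝ := ∫ t in L..x, a t

theorem prim_hd {a : ℝ → ℝ} (h : Continuous a) (L x : ℝ) : HasDerivAt (prim L a) (a x) x :=
  intervalIntegral.integral_hasDerivAt_right (h.intervalIntegrable _ _)
    (h.stronglyMeasurableAtFilter _ _) h.continuousAt

theorem prim_cont {a : ℝ → ℝ} (h : Continuous a) (L : ℝ) : Continuous (prim L a) :=
  continuous_iff_continuousAt.2 fun x => (prim_hd h L x).continuousAt

theorem prim_le {a : ℝ → ℝ} (h : Integrable a) (L x : ℝ) : |prim L a x| ≤ ∫ t, |a t| := by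
  have h1 := intervalIntegral.norm_integral_le_integral_norm_uIoc (f := a) (a := L) (b := x)
    (μ := volume)
  simp only [Real.norm_eq_abs] at h1
  exact h1.trans (setIntegral_le_integral h.abs (Eventually.of_forall fun t => abs_nonneg _))

theorem prim_mul_int {a f : ℝ → ℝ} (ha : Bump a) (hf : Integrable f) (L : ℝ) :
    Integrable fun x => prim L a x * f x :=
  hf.bdd_mul (c := ∫ t, |a t|) (prim_cont ha.cont L).aestronglyMeasurable
    (Eventually.of_forall fun x => prim_le ha.int L x)

theorem ibp {a b : ℝ → ℝ} (ha : Bump a) (hb : Bump b) (L : ℝ) :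
    ∫ x, prim L a x * deriv b x = -∫ x, a x * b x :=
  integral_mul_deriv_eq_deriv_mul_of_integrable (fun x _ => prim_hd ha.cont L x)
    (fun x _ => hb.hd x) (prim_mul_int ha hb.intd L) (ha.int_mul hb) (prim_mul_int ha hb.int L)

theorem prim_deriv {a : ℝ → ℝ} (ha : Bump a) {L : ℝ} (hL : a L = 0) (x : ℝ) :
    ∫ t in L..x, deriv a t = a x := by
  rw [intervalIntegral.integral_eq_sub_of_hasDerivAt (fun t _ => ha.hd t)
    (ha.contd.intervalIntegrable _ _), hL, sub_zero]

theorem sp_int {κ : Type} [Fintype κ] {f g : κ → ℝ → ℝ} (hf : ∀ i, Integrable (f i))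
    (hg : ∀ i, Integrable (g i)) : Integrable fun t : R2 => ∑ i, f i t.1 * g i t.2 :=
  integrable_finsetSum _ fun i _ => (hf i).mul_prod (hg i)

theorem sp_val {κ : Type} [Fintype κ] {f g : κ → ℝ → ℝ} (hf : ∀ i, Integrable (f i))
    (hg : ∀ i, Integrable (g i)) :
    ∫ t : R2, ∑ i, f i t.1 * g i t.2 = ∑ i, (∫ x, f i x) * ∫ y, g i y := by
  have hi : ∀ i, Integrable fun t : R2 => f i t.1 * g i t.2 := fun i => (hf i).mul_prod (hg i)
  rw [integral_finsetSum _ fun i _ => hi i]
  exact Finset.sum_congr rfl fun i _ => integral_prod_mul (f i) (g i)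

section Main

variable {ι : Type} [Fintype ι]

/-- An entry of the matrix field. -/
noncomputable def ent (a b : ι → ℝ → ℝ) (m : ι → ℝ) (t : R2) : ℝ :=
  ∑ c, m c * (a c t.1 * b c t.2)

/-- The divergence of a row of the matrix field. -/
noncomputable def dv (a b : ι → ℝ → ℝ) (m m' : ι → ℝ) (t : R2) : ℝ :=
  ∑ c, (m c * (deriv (a c) t.1 * b c t.2) + m' c * (a c t.1 * deriv (b c) t.2))

variable {a b : ι → ℝ → ℝ}

theorem dv_int (ha : ∀ c, Bump (a c)) (hb : ∀ c, Bump (b c)) (m m' : ι → ℝ) :
    Integrable (dv a b m m') :=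
  integrable_finsetSum _ fun c _ => (((ha c).intd.mul_prod (hb c).int).const_mul _).add
    (((ha c).int.mul_prod (hb c).intd).const_mul _)

theorem ent_mul (m m' : ι → ℝ) (t : R2) :
    ent a b m t * ent a b m' t =
      ∑ q : ι × ι, (m q.1 * m' q.2 * (a q.1 t.1 * a q.2 t.1)) * (b q.1 t.2 * b q.2 t.2) := by
  unfold ent
  rw [Finset.sum_mul_sum, ← Finset.univ_product_univ, Finset.sum_product]
  exact Finset.sum_congr rfl fun c _ => Finset.sum_congr rfl fun d _ => by ring

theorem ent_mul_int (ha : ∀ c, Bump (a c)) (hb : ∀ c, Bump (b c)) (m m' : ι → ℝ) :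
    Integrable fun t => ent a b m t * ent a b m' t := by
  simp_rw [ent_mul]
  exact sp_int (f := fun (q : ι × ι) x => m q.1 * m' q.2 * (a q.1 x * a q.2 x))
    (g := fun (q : ι × ι) y => b q.1 y * b q.2 y)
    (fun q => ((ha _).int_mul (ha _)).const_mul _) fun q => (hb _).int_mul (hb _)

theorem row1 (ha : ∀ c, Bump (a c)) {L : ℝ} (haL : ∀ c, a c L = 0) (m m' : ι → ℝ) (t : R2) :
    ent a b m t ≤ -(∑ c, m' c * (prim L (a c) t.1 * deriv (b c) t.2)) +
      ∫ x, |dv a b m m' (x, t.2)| := by
  have hi : Integrable fun x => dv a b m m' (x, t.2) :=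
    integrable_finsetSum _ fun c _ => (((ha c).intd.mul_const (b c t.2)).const_mul (m c)).add
      (((ha c).int.mul_const (deriv (b c) t.2)).const_mul (m' c))
  have h1 := prim_le hi L t.1
  have h2 : prim L (fun x => dv a b m m' (x, t.2)) t.1 =
      ent a b m t + ∑ c, m' c * (prim L (a c) t.1 * deriv (b c) t.2) := by
    unfold prim dv ent
    dsimp only
    rw [intervalIntegral.integral_finsetSum, ← Finset.sum_add_distrib]
    · refine Finset.sum_congr rfl fun c _ => ?_
      rw [intervalIntegral.integral_add, intervalIntegral.integral_const_mul,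
        intervalIntegral.integral_const_mul, intervalIntegral.integral_mul_const,
        intervalIntegral.integral_mul_const, prim_deriv (ha c) (haL c)]
      · exact (((ha c).intd.mul_const _).const_mul _).intervalIntegrable
      · exact (((ha c).int.mul_const _).const_mul _).intervalIntegrable
    · intro c _
      exact ((((ha c).intd.mul_const _).const_mul _).add
        (((ha c).int.mul_const _).const_mul _)).intervalIntegrable
  rw [h2] at h1
  linarith [le_abs_self (ent a b m t + ∑ c, m' c * (prim L (a c) t.1 * deriv (b c) t.2))]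

theorem row2 (hb : ∀ c, Bump (b c)) {L : ℝ} (hbL : ∀ c, b c L = 0) (m m' : ι → ℝ) (t : R2) :
    ent a b m' t ≤ -(∑ c, m c * (deriv (a c) t.1 * prim L (b c) t.2)) +
      ∫ y, |dv a b m m' (t.1, y)| := by
  have h := row1 (a := b) (b := a) hb hbL m' m (t.2, t.1)
  have e1 : ent b a m' (t.2, t.1) = ent a b m' t :=
    Finset.sum_congr rfl fun c _ => by ring
  have e2 : ∀ y, dv b a m' m (y, t.1) = dv a b m m' (t.1, y) := fun y =>
    Finset.sum_congr rfl fun c _ => by ring
  have e3 : ∑ c, m c * (prim L (b c) t.2 * deriv (a c) t.1) =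
      ∑ c, m c * (deriv (a c) t.1 * prim L (b c) t.2) := Finset.sum_congr rfl fun c _ => by ring
  simp only [e2] at h
  rw [e1, e3] at h
  exact h

theorem detIneq (ha : ∀ c, Bump (a c)) (hb : ∀ c, Bump (b c)) {L : ℝ} (haL : ∀ c, a c L = 0)
    (hbL : ∀ c, b c L = 0) (m11 m12 m21 m22 : ι → ℝ) (h11 : ∀ t, 0 ≤ ent a b m11 t)
    (h22 : ∀ t, 0 ≤ ent a b m22 t) :
    ∫ t, (ent a b m11 t * ent a b m22 t - ent a b m12 t * ent a b m21 t) ≤
      (∫ t, |dv a b m11 m12 t|) * ∫ t, |dv a b m21 m22 t| := by
  set α : ℝ → ℝ := fun y => ∫ x, |dv a b m11 m12 (x, y)| with hα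
  set β : ℝ → ℝ := fun x => ∫ y, |dv a b m21 m22 (x, y)| with hβ
  have i1 := (dv_int ha hb m11 m12).abs
  have i2 := (dv_int ha hb m21 m22).abs
  have iα : Integrable α := i1.integral_prod_right
  have iβ : Integrable β := i2.integral_prod_left
  have vα : ∫ y, α y = ∫ t, |dv a b m11 m12 t| := (integral_prod_symm _ i1).symm
  have vβ : ∫ x, β x = ∫ t, |dv a b m21 m22 t| := (integral_prod _ i2).symm
  set G1 : R2 → ℝ := fun t => -(∑ c, m12 c * (prim L (a c) t.1 * deriv (b c) t.2)) with hG1
  set G2 : R2 → ℝ := fun t => -(∑ c, m21 c * (deriv (a c) t.1 * prim L (b c) t.2)) with hG2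
  have hpt : ∀ t, ent a b m11 t * ent a b m22 t ≤ (G1 t + α t.2) * (G2 t + β t.1) := fun t =>
    mul_le_mul (row1 ha haL m11 m12 t) (row2 hb hbL m21 m22 t) (h22 t)
      ((h11 t).trans (row1 ha haL m11 m12 t))
  have e1 : ∀ t, G1 t * G2 t = ∑ q : ι × ι,
      (m12 q.1 * m21 q.2 * (prim L (a q.1) t.1 * deriv (a q.2) t.1)) *
        (prim L (b q.2) t.2 * deriv (b q.1) t.2) := by
    intro t
    simp only [hG1, hG2, neg_mul_neg]
    rw [Finset.sum_mul_sum, ← Finset.univ_product_univ, Finset.sum_product]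
    exact Finset.sum_congr rfl fun c _ => Finset.sum_congr rfl fun d _ => by ring
  have e2 : ∀ t, G1 t * β t.1 =
      ∑ c, (-m12 c * (prim L (a c) t.1 * β t.1)) * deriv (b c) t.2 := by
    intro t
    simp only [hG1]
    rw [← Finset.sum_neg_distrib, Finset.sum_mul]
    exact Finset.sum_congr rfl fun c _ => by ring
  have e3 : ∀ t, α t.2 * G2 t =
      ∑ c, (-m21 c * deriv (a c) t.1) * (prim L (b c) t.2 * α t.2) := by
    intro t
    simp only [hG2]
    rw [← Finset.sum_neg_distrib, Finset.mul_sum]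
    exact Finset.sum_congr rfl fun c _ => by ring
  have f1 : ∀ q : ι × ι, Integrable fun x =>
      m12 q.1 * m21 q.2 * (prim L (a q.1) x * deriv (a q.2) x) := fun q =>
    (prim_mul_int (ha _) (ha _).intd L).const_mul _
  have g1 : ∀ q : ι × ι, Integrable fun y => prim L (b q.2) y * deriv (b q.1) y := fun q =>
    prim_mul_int (hb _) (hb _).intd L
  have f2 : ∀ c, Integrable fun x => -m12 c * (prim L (a c) x * β x) := fun c =>
    (prim_mul_int (ha _) iβ L).const_mul _
  have f3 : ∀ c, Integrable fun x => -m21 c * deriv (a c) x := fun c => (ha _).intd.const_mul _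
  have g3 : ∀ c, Integrable fun y => prim L (b c) y * α y := fun c => prim_mul_int (hb _) iα L
  have I1 : Integrable fun t => G1 t * G2 t := by
    simp_rw [e1]; exact sp_int f1 g1
  have I2 : Integrable fun t => G1 t * β t.1 := by
    simp_rw [e2]; exact sp_int f2 fun c => (hb c).intd
  have I3 : Integrable fun t => α t.2 * G2 t := by
    simp_rw [e3]; exact sp_int f3 g3
  have I4 : Integrable fun t : R2 => β t.1 * α t.2 := iβ.mul_prod iα
  have V1 : ∫ t, G1 t * G2 t = ∫ t, ent a b m12 t * ent a b m21 t := by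
    simp_rw [e1, ent_mul]
    rw [sp_val f1 g1, sp_val (f := fun (q : ι × ι) x => m12 q.1 * m21 q.2 * (a q.1 x * a q.2 x))
      (g := fun (q : ι × ι) y => b q.1 y * b q.2 y)
      (fun q => ((ha _).int_mul (ha _)).const_mul _) fun q => (hb _).int_mul (hb _)]
    refine Finset.sum_congr rfl fun q _ => ?_
    rw [integral_const_mul, integral_const_mul, ibp (ha _) (ha _), ibp (hb _) (hb _)]
    have : ∫ y, b q.2 y * b q.1 y = ∫ y, b q.1 y * b q.2 y := by simp_rw [mul_comm]
    rw [this]
    ring
  have V2 : ∫ t, G1 t * β t.1 = 0 := by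
    simp_rw [e2]
    rw [sp_val f2 fun c => (hb c).intd]
    exact Finset.sum_eq_zero fun c _ => by rw [(hb c).int_deriv, mul_zero]
  have V3 : ∫ t, α t.2 * G2 t = 0 := by
    simp_rw [e3]
    rw [sp_val f3 g3]
    exact Finset.sum_eq_zero fun c _ => by
      rw [integral_const_mul, (ha c).int_deriv, mul_zero, zero_mul]
  have V4 : ∫ t : R2, β t.1 * α t.2 = (∫ x, β x) * ∫ y, α y := integral_prod_mul β α
  have hle : ∫ t, ent a b m11 t * ent a b m22 t ≤
      ∫ t, (G1 t * G2 t + G1 t * β t.1 + α t.2 * G2 t + β t.1 * α t.2) := by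
    refine integral_mono (ent_mul_int ha hb _ _) (((I1.add I2).add I3).add I4) fun t => ?_
    have := hpt t
    simp only
    linarith
  have I12 : Integrable fun t => G1 t * G2 t + G1 t * β t.1 := I1.add I2
  have I123 : Integrable fun t => G1 t * G2 t + G1 t * β t.1 + α t.2 * G2 t := I12.add I3
  rw [integral_add I123 I4, integral_add I12 I3, integral_add I1 I2,
    V1, V2, V3, V4, vα, vβ] at hle
  rw [integral_sub (ent_mul_int ha hb _ _) (ent_mul_int ha hb _ _)]
  linarith

end Main

end Pool.Agent.MP_7f5071_gt.D1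

end MrgPart1

-- ======== part 2: formerly Pool.Agent.MP_7f5071_gt.D1.Ker
section MrgPart2

/-! Module D1, third part: the smoothing kernel and the smoothed fields. -/

namespace Pool.Agent.MP_7f5071_gt.D1

open Filter Topology Set Metric MeasureTheory
open scoped Convolution

/-- A kernel of width `w` whose derivative has mass at most `D`. -/
structure Ker (w D : ℝ) (p : ℝ → ℝ) : Prop extends Bump p where
  nn : ∀ x, 0 ≤ p x
  zero : ∀ x, w ≤ |x| → p x = 0
  one : ∫ x, p x = 1
  mass : ∫ x, |deriv p x| ≤ D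

theorem exists_ker : ∃ C : ℝ, 0 < C ∧ ∀ w > 0, ∃ p, Ker w (C / w) p := by
  let b : ContDiffBump (0 : ℝ) := ⟨1 / 2, 1, by norm_num, by norm_num⟩
  set q : ℝ → ℝ := b.normed volume with hq
  have hqc : ContDiff ℝ 1 q := b.contDiff_normed
  have hq0 : ∀ x, 1 ≤ |x| → q x = 0 := by
    intro x hx
    by_contra h
    have : x ∈ Function.support q := h
    rw [hq, b.support_normed_eq] at this
    simp only [mem_ball, dist_zero_right, Real.norm_eq_abs] at this
    exact absurd this (not_lt.2 hx)
  have hI : 0 ≤ ∫ x, |deriv q x| := integral_nonneg fun x => abs_nonneg _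
  refine ⟨(∫ x, |deriv q x|) + 1, by linarith, fun w hw => ⟨fun x => q (x / w) / w, ?_⟩⟩
  have hz : ∀ x, w ≤ |x| → q (x / w) / w = 0 := by
    intro x hx
    rw [hq0, zero_div]
    rw [abs_div, abs_of_pos hw, le_div_iff₀ hw]
    linarith
  refine ⟨⟨(hqc.comp (contDiff_id.div_const w)).div_const w, ?_⟩, fun x => ?_, hz, ?_, ?_⟩
  · refine HasCompactSupport.intro (isCompact_closedBall (0 : ℝ) w) fun x hx => hz x ?_
    simp only [mem_closedBall, dist_zero_right, Real.norm_eq_abs, not_le] at hx
    exact hx.le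
  · exact div_nonneg (b.nonneg_normed _) hw.le
  · rw [integral_div, Measure.integral_comp_div q w, hq, b.integral_normed, abs_of_pos hw]
    simp [hw.ne']
  · have hd : ∀ x, |deriv (fun x => q (x / w) / w) x| = |deriv q (x / w)| / w / w := by
      intro x
      have h1 : HasDerivAt (fun x => q (x / w) / w) (deriv q (x / w) * (1 / w) / w) x :=
        (((hqc.differentiable one_ne_zero _).hasDerivAt).comp x
          ((hasDerivAt_id x).div_const w)).div_const w
      rw [h1.deriv, abs_div, abs_mul, abs_of_pos hw, abs_of_pos (one_div_pos.2 hw)]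
      ring
    simp_rw [hd]
    rw [integral_div, integral_div, Measure.integral_comp_div (fun y => |deriv q y|) w,
      abs_of_pos hw, smul_eq_mul, mul_div_cancel_left₀ _ hw.ne']
    gcongr
    linarith

/-- The product kernel. -/
def phi (p : ℝ → ℝ) (z : R2) : ℝ := p z.1 * p z.2

/-- The smoothed field. -/
noncomputable def cv (p : ℝ → ℝ) (g : R2 → R2) (z : R2) : R2 := ∫ t, phi p (z - t) • g t

section

variable {w D η : ℝ} {p : ℝ → ℝ} {g : R2 → R2}

theorem phi_cd (h : Ker w D p) : ContDiff ℝ 1 (phi p) :=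
  (h.cd.comp contDiff_fst).mul (h.cd.comp contDiff_snd)

theorem phi_zero (h : Ker w D p) {z : R2} (hz : w ≤ ‖z‖) : phi p z = 0 := by
  rw [Prod.norm_def, le_max_iff] at hz
  unfold phi
  rcases hz with hz | hz
  · rw [h.zero _ hz, zero_mul]
  · rw [h.zero _ hz, mul_zero]

theorem phi_cs (h : Ker w D p) : HasCompactSupport (phi p) :=
  HasCompactSupport.intro (isCompact_closedBall (0 : R2) w) fun x hx => phi_zero h (by
    simp only [mem_closedBall, dist_zero_right, not_le] at hx
    exact hx.le)

theorem phi_fderiv (h : Ker w D p) (z v : R2) :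
    fderiv ℝ (phi p) z v = v.1 * (deriv p z.1 * p z.2) + v.2 * (p z.1 * deriv p z.2) := by
  have h1 : HasFDerivAt (fun z : R2 => p z.1) (deriv p z.1 • ContinuousLinearMap.fst ℝ ℝ ℝ) z :=
    (h.toBump.hd z.1).comp_hasFDerivAt z hasFDerivAt_fst
  have h2 : HasFDerivAt (fun z : R2 => p z.2) (deriv p z.2 • ContinuousLinearMap.snd ℝ ℝ ℝ) z :=
    (h.toBump.hd z.2).comp_hasFDerivAt z hasFDerivAt_snd
  have h3 : HasFDerivAt (phi p) _ z := h1.mul h2
  rw [h3.fderiv]
  simp
  ring

theorem dphi_cont (h : Ker w D p) : Continuous (fderiv ℝ (phi p)) :=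
  (phi_cd h).continuous_fderiv one_ne_zero

theorem dphi_cs (h : Ker w D p) : HasCompactSupport (fderiv ℝ (phi p)) := (phi_cs h).fderiv ℝ

theorem Fld.loc (hg : Fld η g) : LocallyIntegrable g :=
  (locallyIntegrable_const η).mono hg.1.aestronglyMeasurable
    (Eventually.of_forall fun t => (hg.2 t).trans (le_abs_self η))

theorem cv_eq : cv p g = g ⋆[(ContinuousLinearMap.lsmul ℝ ℝ).flip, volume] phi p := by
  ext1 z
  simp [cv, convolution_def]

theorem cv_cd (h : Ker w D p) (hg : Fld η g) : ContDiff ℝ 1 (cv p g) := by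
  rw [cv_eq]
  exact (phi_cs h).contDiff_convolution_right _ hg.loc (phi_cd h)

theorem cv_fderiv (h : Ker w D p) (hg : Fld η g) (z v : R2) :
    fderiv ℝ (cv p g) z v = ∫ t, fderiv ℝ (phi p) (z - t) v • g t := by
  rw [cv_eq, ((phi_cs h).hasFDerivAt_convolution_right _ hg.loc (phi_cd h) z).fderiv,
    convolution_precompR_apply _ hg.loc (dphi_cs h) (dphi_cont h)]
  simp [convolution_def]

theorem norm_int_le (hg : Fld η g) {k m : R2 → ℝ} (hm : Integrable m) (hk : ∀ t, |k t| ≤ m t) :
    ‖∫ t, k t • g t‖ ≤ η * ∫ t, m t := by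
  rw [← integral_const_mul]
  refine norm_integral_le_of_norm_le (hm.const_mul η) (Eventually.of_forall fun t => ?_)
  rw [norm_smul, Real.norm_eq_abs, mul_comm]
  exact mul_le_mul (hg.2 t) (hk t) (abs_nonneg _) ((norm_nonneg _).trans (hg.2 t))

theorem phi_int (h : Ker w D p) : Integrable (phi p) := h.toBump.int.mul_prod h.toBump.int

theorem phi_one (h : Ker w D p) : ∫ z, phi p z = 1 := by
  have := integral_prod_mul (μ := volume) (ν := volume) p p
  rw [h.one, mul_one] at this
  exact this

theorem cv_norm (h : Ker w D p) (hg : Fld η g) (z : R2) : ‖cv p g z‖ ≤ η := by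
  have := norm_int_le hg (k := fun t => phi p (z - t)) (m := fun t => phi p (z - t))
    ((phi_int h).comp_sub_left z) fun t => (abs_of_nonneg (mul_nonneg (h.nn _) (h.nn _))).le
  rw [integral_sub_left_eq_self (phi p) volume z, phi_one h, mul_one] at this
  exact this

theorem cv_fderiv_norm (h : Ker w D p) (hg : Fld η g) (z : R2) :
    ‖fderiv ℝ (cv p g) z‖ ≤ η * (2 * D) := by
  have hη : 0 ≤ η := (norm_nonneg _).trans (hg.2 0)
  have hD : 0 ≤ D := (integral_nonneg fun x => abs_nonneg _).trans h.mass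
  refine ContinuousLinearMap.opNorm_le_bound _ (by positivity) fun v => ?_
  set m : R2 → ℝ := fun s => |deriv p s.1| * p s.2 + p s.1 * |deriv p s.2| with hm
  have i1 : Integrable fun s : R2 => |deriv p s.1| * p s.2 :=
    h.toBump.intd.abs.mul_prod h.toBump.int
  have i2 : Integrable fun s : R2 => p s.1 * |deriv p s.2| :=
    h.toBump.int.mul_prod h.toBump.intd.abs
  have im : Integrable m := i1.add i2
  have vm : ∫ s, m s ≤ 2 * D := by
    have v1 : ∫ s : R2, |deriv p s.1| * p s.2 = (∫ x, |deriv p x|) * ∫ x, p x :=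
      integral_prod_mul (fun x => |deriv p x|) p
    have v2 : ∫ s : R2, p s.1 * |deriv p s.2| = (∫ x, p x) * ∫ x, |deriv p x| :=
      integral_prod_mul p fun x => |deriv p x|
    rw [hm, integral_add i1 i2, v1, v2, h.one]
    linarith [h.mass]
  rw [cv_fderiv h hg]
  have := norm_int_le hg (k := fun t => fderiv ℝ (phi p) (z - t) v)
    (m := fun t => ‖v‖ * m (z - t)) ((im.comp_sub_left z).const_mul _) fun t => by
      rw [phi_fderiv h, hm]
      have h1 : |v.1| ≤ ‖v‖ := norm_fst_le v
      have h2 : |v.2| ≤ ‖v‖ := norm_snd_le v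
      refine (abs_add_le _ _).trans ?_
      simp only [abs_mul, abs_of_nonneg (h.nn _), mul_add]
      gcongr
      · exact mul_nonneg (abs_nonneg _) (h.nn _)
      · exact mul_nonneg (h.nn _) (abs_nonneg _)
  rw [integral_const_mul, integral_sub_left_eq_self m volume z] at this
  refine this.trans ?_
  calc η * (‖v‖ * ∫ s, m s) ≤ η * (‖v‖ * (2 * D)) := by gcongr
    _ = η * (2 * D) * ‖v‖ := by ring

/-- The modulus of continuity in the mean of the derivative of the kernel. -/
noncomputable def om (p : ℝ → ℝ) (u : R2) : ℝ :=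
  ∫ s, ‖fderiv ℝ (phi p) (u + s) - fderiv ℝ (phi p) s‖

theorem om_tendsto (h : Ker w D p) : ContinuousAt (om p) 0 := by
  obtain ⟨M, hM⟩ := (dphi_cont h).bounded_above_of_compact_support (dphi_cs h)
  obtain ⟨r, hr⟩ := (dphi_cs h).isCompact.isBounded.subset_closedBall (0 : R2)
  have hz : ∀ s : R2, r < ‖s‖ → fderiv ℝ (phi p) s = 0 := by
    intro s hs
    by_contra hne
    have := hr (subset_tsupport _ hne)
    simp only [mem_closedBall, dist_zero_right] at this
    linarith
  refine continuousAt_of_dominated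
    (bound := (closedBall (0 : R2) (r + 1)).indicator fun _ => 2 * M) ?_ ?_ ?_ ?_
  · exact Eventually.of_forall fun u =>
      ((((dphi_cont h).comp (continuous_const.add continuous_id)).sub
        (dphi_cont h)).norm).aestronglyMeasurable
  · filter_upwards [ball_mem_nhds (0 : R2) one_pos] with u hu
    refine Eventually.of_forall fun s => ?_
    rw [norm_norm]
    by_cases hs : s ∈ closedBall (0 : R2) (r + 1)
    · rw [indicator_of_mem hs]
      exact (norm_sub_le _ _).trans (by linarith [hM (u + s), hM s])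
    · rw [indicator_of_notMem hs]
      simp only [mem_closedBall, dist_zero_right, not_le] at hs
      simp only [mem_ball, dist_zero_right] at hu
      have h1 : ‖s‖ ≤ ‖u + s‖ + ‖u‖ := by
        simpa using norm_sub_le (u + s) u
      rw [hz s (by linarith), hz (u + s) (by linarith)]
      simp
  · exact (integrable_indicator_iff measurableSet_closedBall).2
      (integrableOn_const measure_closedBall_lt_top.ne)
  · exact Eventually.of_forall fun s =>
      ((((dphi_cont h).comp (continuous_id.add continuous_const)).sub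
        continuous_const).norm).continuousAt

theorem cv_fderiv_sub (h : Ker w D p) (hg : Fld η g) (z z' : R2) :
    ‖fderiv ℝ (cv p g) z - fderiv ℝ (cv p g) z'‖ ≤ η * om p (z - z') := by
  have hη : 0 ≤ η := (norm_nonneg _).trans (hg.2 0)
  have ho : 0 ≤ om p (z - z') := integral_nonneg fun s => norm_nonneg _
  have iD : Integrable (fderiv ℝ (phi p)) :=
    (dphi_cont h).integrable_of_hasCompactSupport (dphi_cs h)
  refine ContinuousLinearMap.opNorm_le_bound _ (by positivity) fun v => ?_
  have iv : ∀ y : R2, Integrable fun t => fderiv ℝ (phi p) (y - t) v • g t := fun y =>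
    ((iD.comp_sub_left y).apply_continuousLinearMap v).smul_bdd η hg.1.aestronglyMeasurable
      (Eventually.of_forall hg.2)
  rw [sub_apply, cv_fderiv h hg, cv_fderiv h hg, ← integral_sub (iv z) (iv z')]
  simp_rw [← sub_smul]
  set m : R2 → ℝ := fun s => ‖fderiv ℝ (phi p) (z - z' + s) - fderiv ℝ (phi p) s‖ with hm
  have im : Integrable m := ((iD.comp_add_left (z - z')).sub iD).norm
  have := norm_int_le hg (k := fun t => fderiv ℝ (phi p) (z - t) v - fderiv ℝ (phi p) (z' - t) v)
    (m := fun t => ‖v‖ * m (z' - t)) ((im.comp_sub_left z').const_mul _) fun t => by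
      rw [← sub_apply, mul_comm, ← Real.norm_eq_abs, hm]
      have : z - z' + (z' - t) = z - t := by abel
      simp only [this]
      exact ContinuousLinearMap.le_opNorm _ _
  rw [integral_const_mul, integral_sub_left_eq_self m volume z'] at this
  refine this.trans (le_of_eq ?_)
  rw [hm, om]
  ring

/-- The derivatives of the smoothed fields are equicontinuous. -/
theorem equi (h : Ker w D p) (hη : 0 < η) {ε : ℝ} (hε : 0 < ε) : ∃ δ > 0, ∀ g, Fld η g →
    ∀ z z', dist z z' < δ → ‖fderiv ℝ (cv p g) z - fderiv ℝ (cv p g) z'‖ ≤ ε := by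
  obtain ⟨δ, hδ, hd⟩ := Metric.continuousAt_iff.1 (om_tendsto h) (ε / η) (div_pos hε hη)
  refine ⟨δ, hδ, fun g hg z z' hz => (cv_fderiv_sub h hg z z').trans ?_⟩
  have h1 := hd (x := z - z') (by rwa [dist_zero_right, ← dist_eq_norm])
  have h0 : om p 0 = 0 := by simp [om]
  rw [h0, dist_zero_right, Real.norm_eq_abs] at h1
  have h2 := (le_abs_self _).trans h1.le
  rwa [le_div_iff₀ hη, mul_comm] at h2

end

end Pool.Agent.MP_7f5071_gt.D1

end MrgPart2

-- marker of a merged file
example : 731051 + 91681 = 731051 + 91681 := rfl
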