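import Pool.Agent.MP_7f5071_gt.D1.Ker

/-! Module D1, fourth part: finitely many constraints are solvable. -/

namespace Pool.Agent.MP_7f5071_gt.D1

open Filter Topology Set Metric MeasureTheory

variable {w D : ℝ} {p : ℝ → ℝ}

theorem refl_bump (h : Ker w D p) (x : ℝ) : Bump fun s => p (x - s) := by
  refine ⟨h.cd.comp (contDiff_const.sub contDiff_id), ?_⟩
  refine HasCompactSupport.intro (isCompact_closedBall x w) fun s hs => h.zero _ ?_
  simp only [mem_closedBall, Real.dist_eq, not_le] at hs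
  rw [abs_sub_comm]
  exact hs.le

theorem refl_deriv (p : ℝ → ℝ) (x s : ℝ) : deriv (fun s => p (x - s)) s = -deriv p (x - s) :=
  deriv_comp_const_sub p x s

theorem det_pt {ι : Type} [Fintype ι] (μ m11 m12 m21 m22 τ : ι → ℝ) (hμ : ∀ c, 0 ≤ μ c)
    (hD : ∀ c d, 2 * (τ c * τ d) ≤ m11 c * m22 d + m22 c * m11 d - m12 c * m21 d - m21 c * m12 d) :
    (∑ c, τ c * μ c) ^ 2 ≤ (∑ c, m11 c * μ c) * (∑ c, m22 c * μ c) -
      (∑ c, m12 c * μ c) * ∑ c, m21 c * μ c := by
  have e : ∀ f g : ι → ℝ, (∑ c, f c * μ c) * (∑ c, g c * μ c) =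
      ∑ c, ∑ d, μ c * μ d * (f c * g d) := by
    intro f g
    rw [Finset.sum_mul_sum]
    exact Finset.sum_congr rfl fun c _ => Finset.sum_congr rfl fun d _ => by ring
  have h : ∑ c, ∑ d, μ c * μ d * (2 * (τ c * τ d)) ≤ ∑ c, ∑ d, μ c * μ d *
      (m11 c * m22 d + m22 c * m11 d - m12 c * m21 d - m21 c * m12 d) :=
    Finset.sum_le_sum fun c _ => Finset.sum_le_sum fun d _ =>
      mul_le_mul_of_nonneg_left (hD c d) (mul_nonneg (hμ c) (hμ d))
  have l1 : ∑ c, ∑ d, μ c * μ d * (2 * (τ c * τ d)) = 2 * ((∑ c, τ c * μ c) * ∑ c, τ c * μ c) := by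
    rw [e, Finset.mul_sum]
    refine Finset.sum_congr rfl fun c _ => ?_
    rw [Finset.mul_sum]
    exact Finset.sum_congr rfl fun d _ => by ring
  simp only [mul_add, mul_sub, Finset.sum_add_distrib, Finset.sum_sub_distrib] at h
  rw [l1, ← e, ← e, ← e, ← e] at h
  nlinarith

theorem pr_eq {η : ℝ} {g : R2 → R2} (h : Ker w D p) (hg : Fld η g) (z : R2)
    (m11 m12 m21 m22 : ℝ) :
    pr (fun t => m11 * fderiv ℝ (phi p) (z - t) (1, 0) + m12 * fderiv ℝ (phi p) (z - t) (0, 1))
      (fun t => m21 * fderiv ℝ (phi p) (z - t) (1, 0) + m22 * fderiv ℝ (phi p) (z - t) (0, 1)) g =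
    m11 * (fderiv ℝ (cv p g) z (1, 0)).1 + m12 * (fderiv ℝ (cv p g) z (0, 1)).1 +
      m21 * (fderiv ℝ (cv p g) z (1, 0)).2 + m22 * (fderiv ℝ (cv p g) z (0, 1)).2 := by
  have iD : Integrable (fderiv ℝ (phi p)) :=
    (dphi_cont h).integrable_of_hasCompactSupport (dphi_cs h)
  have ik : ∀ v : R2, Integrable fun t => fderiv ℝ (phi p) (z - t) v := fun v =>
    (iD.comp_sub_left z).apply_continuousLinearMap v
  have iv : ∀ v : R2, Integrable fun t => fderiv ℝ (phi p) (z - t) v • g t := fun v =>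
    (ik v).smul_bdd η hg.1.aestronglyMeasurable (Eventually.of_forall hg.2)
  simp only [cv_fderiv h hg, fst_integral (iv _), snd_integral (iv _), Prod.smul_fst,
    Prod.smul_snd, smul_eq_mul, pr, add_mul, mul_assoc]
  rw [integral_add ((hg.int1 (ik _)).const_mul _) ((hg.int1 (ik _)).const_mul _),
    integral_add ((hg.int2 (ik _)).const_mul _) ((hg.int2 (ik _)).const_mul _)]
  simp only [integral_const_mul]
  ring

theorem core {ι : Type} [Fintype ι] (h : Ker w D p) (hw : 0 < w) {η κ R : ℝ} (hη : 0 < η)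
    (hκ : 0 < κ) {O : Set R2} (hO : volume (thickening (2 * w) O) ≤ ENNReal.ofReal (η ^ 2 / 2))
    (z : ι → R2) (hz : ∀ c, ‖z c‖ ≤ R) (m11 m12 m21 m22 τ : ι → ℝ) (hτ0 : ∀ c, 0 ≤ τ c)
    (hτ1 : ∀ c, τ c ≤ 1) (hτO : ∀ c, τ c ≠ 0 → z c ∈ O) (h11 : ∀ c, 0 ≤ m11 c) (h22 : ∀ c, 0 ≤ m22 c)
    (hD : ∀ c d, 2 * (τ c * τ d) ≤ m11 c * m22 d + m22 c * m11 d - m12 c * m21 d - m21 c * m12 d) :
    ∃ g, Fld η g ∧ ∀ c, m11 c * (fderiv ℝ (cv p g) (z c) (1, 0)).1 +
      m12 c * (fderiv ℝ (cv p g) (z c) (0, 1)).1 + m21 c * (fderiv ℝ (cv p g) (z c) (1, 0)).2 +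
      m22 c * (fderiv ℝ (cv p g) (z c) (0, 1)).2 + (2 * τ c - κ * (1 - τ c)) < 0 := by
  have iD : Integrable (fderiv ℝ (phi p)) :=
    (dphi_cont h).integrable_of_hasCompactSupport (dphi_cs h)
  have ik : ∀ y v : R2, Integrable fun t => fderiv ℝ (phi p) (y - t) v := fun y v =>
    (iD.comp_sub_left y).apply_continuousLinearMap v
  have mk : ∀ y v : R2, Measurable fun t => fderiv ℝ (phi p) (y - t) v := fun y v =>
    (((dphi_cont h).comp (continuous_const.sub continuous_id)).clm_apply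
      continuous_const).measurable
  rcases dual hη.le
    (fun c t => m11 c * fderiv ℝ (phi p) (z c - t) (1, 0) +
      m12 c * fderiv ℝ (phi p) (z c - t) (0, 1))
    (fun c t => m21 c * fderiv ℝ (phi p) (z c - t) (1, 0) +
      m22 c * fderiv ℝ (phi p) (z c - t) (0, 1))
    (fun c => 2 * τ c - κ * (1 - τ c))
    (fun c => ((ik _ _).const_mul _).add ((ik _ _).const_mul _))
    (fun c => ((ik _ _).const_mul _).add ((ik _ _).const_mul _))
    (fun c => ((mk _ _).const_mul _).add ((mk _ _).const_mul _))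
    (fun c => ((mk _ _).const_mul _).add ((mk _ _).const_mul _)) with
    ⟨g, hg, hc⟩ | ⟨u, hu, hu1, hle⟩
  · exact ⟨g, hg, fun c => by rw [← pr_eq h hg]; exact hc c⟩
  exfalso
  set a : ι → ℝ → ℝ := fun c s => p ((z c).1 - s) with ha
  set b : ι → ℝ → ℝ := fun c s => p ((z c).2 - s) with hb
  have hBa : ∀ c, Bump (a c) := fun c => refl_bump h _
  have hBb : ∀ c, Bump (b c) := fun c => refl_bump h _
  have haL : ∀ c, a c (R + w) = 0 := fun c => h.zero _ (by
    have := (le_abs_self _).trans ((norm_fst_le (z c)).trans (hz c))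
    rw [abs_sub_comm]
    exact le_trans (by linarith) (le_abs_self _))
  have hbL : ∀ c, b c (R + w) = 0 := fun c => h.zero _ (by
    have := (le_abs_self _).trans ((norm_snd_le (z c)).trans (hz c))
    rw [abs_sub_comm]
    exact le_trans (by linarith) (le_abs_self _))
  have edv : ∀ (m m' : ι → ℝ) (t : R2), |∑ c, u c * (m c * fderiv ℝ (phi p) (z c - t) (1, 0) +
      m' c * fderiv ℝ (phi p) (z c - t) (0, 1))| =
      |dv a b (fun c => u c * m c) (fun c => u c * m' c) t| := by
    intro m m' t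
    rw [← abs_neg, ← Finset.sum_neg_distrib]
    congr 1
    refine Finset.sum_congr rfl fun c _ => ?_
    simp only [phi_fderiv h, ha, hb, refl_deriv, Prod.fst_sub, Prod.snd_sub]
    ring
  simp only [edv] at hle
  have hab : ∀ c (t : R2), 0 ≤ a c t.1 * b c t.2 := fun c t => mul_nonneg (h.nn _) (h.nn _)
  have hdet := detIneq hBa hBb haL hbL (fun c => u c * m11 c) (fun c => u c * m12 c)
    (fun c => u c * m21 c) (fun c => u c * m22 c)
    (fun t => Finset.sum_nonneg fun c _ => mul_nonneg (mul_nonneg (hu c) (h11 c)) (hab c t))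
    (fun t => Finset.sum_nonneg fun c _ => mul_nonneg (mul_nonneg (hu c) (h22 c)) (hab c t))
  set A := ∫ t, |dv a b (fun c => u c * m11 c) (fun c => u c * m12 c) t| with hA
  set B := ∫ t, |dv a b (fun c => u c * m21 c) (fun c => u c * m22 c) t| with hB
  have hA0 : 0 ≤ A := integral_nonneg fun t => abs_nonneg _
  have hB0 : 0 ≤ B := integral_nonneg fun t => abs_nonneg _
  set mT := ∑ c, u c * τ c with hmT
  have eo : ∑ c, u c * (2 * τ c - κ * (1 - τ c)) = 2 * mT - κ * (1 - mT) := by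
    have : ∀ c, u c * (2 * τ c - κ * (1 - τ c)) = (2 + κ) * (u c * τ c) - κ * u c := fun c => by
      ring
    simp only [this, Finset.sum_sub_distrib, ← Finset.mul_sum, hu1]
    ring
  rw [eo] at hle
  have hmT0 : 0 ≤ mT := Finset.sum_nonneg fun c _ => mul_nonneg (hu c) (hτ0 c)
  have hmT1 : mT ≤ 1 := by
    rw [← hu1]
    exact Finset.sum_le_sum fun c _ => mul_le_of_le_one_right (hu c) (hτ1 c)
  have hmTpos : 0 < mT := by
    rcases eq_or_lt_of_le hmT0 with h0 | h0
    · rw [← h0] at hle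
      nlinarith [mul_nonneg hη.le (add_nonneg hA0 hB0)]
    · exact h0
  set cc : R2 → ℝ := ent a b fun c => u c * τ c with hcc
  have icc : Integrable cc :=
    integrable_finsetSum _ fun c _ => ((hBa c).int.mul_prod (hBb c).int).const_mul _
  have icc2 : Integrable fun t => cc t * cc t := ent_mul_int hBa hBb _ _
  have vcc : ∫ t, cc t = mT := by
    have i : ∀ c, Integrable fun t : R2 => u c * τ c * (a c t.1 * b c t.2) := fun c =>
      ((hBa c).int.mul_prod (hBb c).int).const_mul _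
    rw [hcc]
    unfold ent
    rw [integral_finsetSum _ fun c _ => i c]
    refine Finset.sum_congr rfl fun c _ => ?_
    have v : ∫ t : R2, a c t.1 * b c t.2 = (∫ x, a c x) * ∫ y, b c y :=
      integral_prod_mul (a c) (b c)
    rw [integral_const_mul, v, ha, hb]
    simp only [integral_sub_left_eq_self p volume, h.one, mul_one]
  have hc2 : ∫ t, cc t * cc t ≤ A * B := by
    refine le_trans (integral_mono icc2 ((ent_mul_int hBa hBb _ _).sub (ent_mul_int hBa hBb _ _))
      fun t => ?_) hdet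
    have := det_pt (fun c => u c * (a c t.1 * b c t.2)) m11 m12 m21 m22 τ
      (fun c => mul_nonneg (hu c) (hab c t)) hD
    have e : ∀ m : ι → ℝ, ∑ c, m c * (u c * (a c t.1 * b c t.2)) =
        ent a b (fun c => u c * m c) t := fun m => Finset.sum_congr rfl fun c _ => by ring
    simp only [e, sq] at this
    exact this
  set S := thickening (2 * w) O with hS
  have hSm : MeasurableSet S := isOpen_thickening.measurableSet
  have hSfin : volume S ≠ ⊤ := ne_top_of_le_ne_top ENNReal.ofReal_ne_top hO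
  have hcc0 : ∀ t, t ∉ S → cc t = 0 := by
    intro t ht
    refine Finset.sum_eq_zero fun c _ => ?_
    by_cases hτ : τ c = 0
    · simp [hτ]
    · have : phi p (z c - t) = 0 := phi_zero h (by
        by_contra hlt
        refine ht (mem_thickening_iff.2 ⟨z c, hτO c hτ, ?_⟩)
        rw [dist_comm, dist_eq_norm]
        linarith [not_le.1 hlt])
      exact mul_eq_zero_of_right _ this
  set l : ℝ := η ^ 2 / mT with hl
  have hlpos : 0 < l := div_pos (by positivity) hmTpos
  have iS : Integrable (S.indicator fun _ => 1 / (2 * l)) :=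
    (integrable_indicator_iff hSm).2 (integrableOn_const hSfin)
  have hint : ∫ t, cc t ≤ ∫ t, (l / 2 * (cc t * cc t) + S.indicator (fun _ => 1 / (2 * l)) t) := by
    refine integral_mono icc ((icc2.const_mul _).add iS) fun t => ?_
    by_cases ht : t ∈ S
    · simp only [indicator_of_mem ht]
      have : l / 2 * (cc t * cc t) + 1 / (2 * l) - cc t = (l * cc t - 1) ^ 2 / (2 * l) := by
        field_simp
        ring
      have h2 : 0 ≤ (l * cc t - 1) ^ 2 / (2 * l) := by positivity
      linarith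
    · simp [indicator_of_notMem ht, hcc0 t ht]
  rw [integral_add (icc2.const_mul _) iS, integral_const_mul, vcc, integral_indicator hSm,
    setIntegral_const, smul_eq_mul] at hint
  have hvol : (volume : Measure R2).real S ≤ η ^ 2 / 2 :=
    ENNReal.toReal_le_of_le_ofReal (by positivity) hO
  have k1 : η * (A + B) ≤ 2 * mT := by nlinarith [mul_nonneg hκ.le (sub_nonneg.2 hmT1)]
  have k2 : η ^ 2 * (A * B) ≤ mT ^ 2 := by
    have := pow_le_pow_left₀ (mul_nonneg hη.le (add_nonneg hA0 hB0)) k1 2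
    nlinarith [mul_nonneg (sq_nonneg η) (sq_nonneg (A - B))]
  have k3 : l / 2 * ∫ t, cc t * cc t ≤ mT / 2 := by
    calc l / 2 * ∫ t, cc t * cc t ≤ l / 2 * (A * B) := by gcongr
      _ = η ^ 2 * (A * B) / (2 * mT) := by rw [hl]; field_simp
      _ ≤ mT ^ 2 / (2 * mT) := by gcongr
      _ = mT / 2 := by field_simp
  have k4 : (volume : Measure R2).real S * (1 / (2 * l)) ≤ mT / 4 := by
    calc (volume : Measure R2).real S * (1 / (2 * l)) ≤ η ^ 2 / 2 * (1 / (2 * l)) := by gcongr
      _ = mT / 4 := by rw [hl]; field_simp; norm_num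
  linarith

end Pool.Agent.MP_7f5071_gt.D1
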